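import Pool.Agent.U548.EL.Proj

/-!
# Varieties with a decomposition of the diagonal: Künneth projectors and monodromy-weight
-/

set_option autoImplicit false

open CategoryTheory AlgebraicGeometry

universe u v w

namespace Pool.Agent.U548.EL

open Pool.Agent.H914 Pool.Agent.H914.VarClass Pool.Agent.H914.VarClass.Obj
  Pool.Agent.H914.WeilCohomology Pool.Agent.Y163.MW Pool.Agent.U644.LT Pool.Agent.U548.DG

variable {k : Type u} [Field k] {𝒱 : VarClass k} {ops : CycleOps 𝒱} {I : Type w}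
  {S : EllSystem.{u, v, w} ops I} {q : ℕ} {X Y Z : 𝒱.Obj}

/-- The operators of a piece are given by cycles. -/
lemma corr_rl {p : ℕ} {z : (X.prod Y).Cycles} (hz : (X.prod Y).IsCyc p z) {d : ℤ}
    (hd : (p : ℤ) = X.dim + d) : Rl S X Y d (fun ℓ => (S.W ℓ).corr ((S.W ℓ).cl _ z)) :=
  Or.inr ⟨p, hd, z, hz, fun _ => rfl⟩

/-- A piece, restricted to `H^j(X)`, is given by a cycle. -/
lemma piece_proj (hS : S.Known q) {Z : Piece X} (hZ : S.Allowed q Z) {j : ℕ} (hj : j ≤ 3) :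
    Rl S X X 0 (fun ℓ => Piece.op (S.W ℓ) Z ∘ₗ prF S X j ℓ) := by
  rcases Z with Z | Z
  · -- a supported cycle
    have hcor : Rl S Z.S Z.T (Z.T.dim - X.dim : ℤ) (fun ℓ => (S.W ℓ).corr ((S.W ℓ).cl _ Z.z)) :=
      corr_rl Z.isCyc (by have := Z.dim_eq; omega)
    have hv : Rl S X Z.S 0 (fun ℓ => ((S.W ℓ).map Z.v).toLinearMap) := Rl.mapHom _
    have hw : Rl S Z.T X ((X.dim : ℤ) - Z.T.dim) (fun ℓ => (S.W ℓ).push Z.w) := Rl.pushHom _
    have hu : Rl S X Z.T (Z.T.dim - X.dim : ℤ)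
        (fun ℓ => (S.W ℓ).corr ((S.W ℓ).cl _ Z.z) ∘ₗ ((S.W ℓ).map Z.v).toLinearMap) :=
      (hcor.comp hv).cast (by ring)
    by_cases hneg : (j : ℤ) + 2 * (Z.T.dim - X.dim : ℤ) < 0
    · left
      intro ℓ
      have h1 := comp_prF_neg hu hneg ℓ
      change (S.W ℓ).push Z.w ∘ₗ (((S.W ℓ).corr ((S.W ℓ).cl _ Z.z) ∘ₗ
        ((S.W ℓ).map Z.v).toLinearMap) ∘ₗ prF S X j ℓ) = 0
      rw [h1, LinearMap.comp_zero]
    · obtain ⟨j', hj'⟩ : ∃ j' : ℕ, (j' : ℤ) = j + 2 * (Z.T.dim - X.dim : ℤ) :=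
        ⟨((j : ℤ) + 2 * (Z.T.dim - X.dim : ℤ)).toNat, by omega⟩
      by_cases hT : Z.T.dim ≤ 2 ∨ j' ≤ 1
      · -- through `T`
        have h1 : Rl S Z.T Z.T 0 (prF S Z.T j') := algProj_iff.1 (hS.kunneth _ _ (by tauto))
        refine ((hw.comp (h1.comp hu)).cast (by ring)).congr fun ℓ => ?_
        have h2 := comp_prF hu hj' ℓ
        rw [← h2]
        rfl
      · -- through `S`
        have hS' : Z.S.dim ≤ 2 := by
          have h3 : Z.S.dim + Z.T.dim ≤ X.dim + 2 ∨ Z.T.dim + 1 ≤ X.dim := hZ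
          push Not at hT
          omega
        have h1 : Rl S Z.S Z.S 0 (prF S Z.S j) := algProj_iff.1 (hS.kunneth _ _ (Or.inl hS'))
        refine ((hw.comp (hcor.comp (h1.comp hv))).cast (by ring)).congr fun ℓ => ?_
        have h2 := comp_prF hv (i := j) (i' := j) (by ring) ℓ
        rw [← h2]
        rfl
  · -- a pair of correspondences
    obtain ⟨hY, hp⟩ : S.Good q Z.Y ∧ Z.p + Z.p' = X.dim + Z.Y.dim := hZ
    have hu : Rl S X Z.Y ((Z.p : ℤ) - X.dim) (fun ℓ => (S.W ℓ).corr ((S.W ℓ).cl _ Z.z)) :=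
      corr_rl Z.isCyc (by ring)
    have hv : Rl S Z.Y X ((Z.p' : ℤ) - Z.Y.dim) (fun ℓ => (S.W ℓ).corr ((S.W ℓ).cl _ Z.z')) :=
      corr_rl Z.isCyc' (by ring)
    by_cases hneg : (j : ℤ) + 2 * ((Z.p : ℤ) - X.dim) < 0
    · left
      intro ℓ
      have h1 := comp_prF_neg hu hneg ℓ
      change (S.W ℓ).corr ((S.W ℓ).cl _ Z.z') ∘ₗ ((S.W ℓ).corr ((S.W ℓ).cl _ Z.z) ∘ₗ
        prF S X j ℓ) = 0
      rw [h1, LinearMap.comp_zero]
    · obtain ⟨j', hj'⟩ : ∃ j' : ℕ, (j' : ℤ) = j + 2 * ((Z.p : ℤ) - X.dim) :=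
        ⟨((j : ℤ) + 2 * ((Z.p : ℤ) - X.dim)).toNat, by omega⟩
      have h1 : Rl S Z.Y Z.Y 0 (prF S Z.Y j') := algProj_iff.1 (hY.2 _)
      refine ((hv.comp (h1.comp hu)).cast (by omega)).congr fun ℓ => ?_
      have h2 := comp_prF hu hj' ℓ
      rw [← h2]
      rfl

/-- The Künneth projectors in low degrees. -/
lemma algProj_low (hS : S.Known q) (hX : S.Decomposition q X) {j : ℕ} (hj : j ≤ 3) :
    S.AlgProj X j := by
  rw [algProj_iff]
  obtain ⟨l, hl, hsum⟩ := hX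
  have key : ∀ l : List (Piece X), (∀ Z ∈ l, S.Allowed q Z) →
      Rl S X X 0 (fun ℓ => (l.map (Piece.op (S.W ℓ))).sum ∘ₗ prF S X j ℓ) := by
    intro l
    induction l with
    | nil =>
      intro _
      exact Rl.zero.congr fun ℓ => by rw [List.map_nil, List.sum_nil, LinearMap.zero_comp]
    | cons Z l ih =>
      intro h
      refine ((piece_proj hS (h Z (by simp)) hj).add (ih fun Z' hZ' => h Z' (by simp [hZ']))).congr
        fun ℓ => ?_
      rw [List.map_cons, List.sum_cons, LinearMap.add_comp]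
  refine (key l hl).congr fun ℓ => ?_
  have h1 : (l.map (Piece.op (S.W ℓ))).sum = (1 : Module.End (S.W ℓ).K ((S.W ℓ).H X)) := hsum ℓ
  change (l.map (Piece.op (S.W ℓ))).sum ∘ₗ prF S X j ℓ = prF S X j ℓ
  rw [h1]
  rfl

/-- **The Künneth projectors.** -/
theorem algProj (hS : S.Known q) (hX : S.Decomposition q X) {j : ℕ}
    (hj : j ≤ 3 ∨ 2 * X.dim ≤ j + 3 ∨ X.dim ≤ 4) : S.AlgProj X j := by
  have h1 : ∀ j, j ≤ 3 ∨ 2 * X.dim ≤ j + 3 → S.AlgProj X j := by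
    intro j hj
    rcases hj with hj | hj
    · exact algProj_low hS hX hj
    · by_cases hj2 : 2 * X.dim < j
      · exact hS.kunneth X j (by omega)
      · have h2 := algProj_dual (i := 2 * X.dim - j) (by omega) (algProj_low hS hX (by omega))
        rwa [show 2 * X.dim - (2 * X.dim - j) = j by omega] at h2
  by_cases hj' : j ≤ 3 ∨ 2 * X.dim ≤ j + 3
  · exact h1 j hj'
  · exact algProj_last (fun t _ ht => h1 t (by omega)) (by omega)

/-- The decomposition for one `ℓ`. -/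
lemma hasDecomposition (hX : S.Decomposition q X) (ℓ : I) :
    HasDecomposition (S.W ℓ) {Y | ∀ ℓ, (S.A ℓ).MW q Y} X 2 1 := by
  obtain ⟨l, hl, hsum⟩ := hX
  have h1 : (l.map (Piece.op (S.W ℓ))).sum = (1 : Module.End (S.W ℓ).K ((S.W ℓ).H X)) := hsum ℓ
  unfold HasDecomposition Decomposes
  rw [← h1]
  refine AddSubmonoid.list_sum_mem _ fun φ hφ => ?_
  obtain ⟨Z, hZ, rfl⟩ := List.mem_map.1 hφ
  apply AddSubmonoid.subset_closure
  have hZ' := hl Z hZ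
  rcases Z with Z | Z
  · exact Or.inl ⟨Z, hZ', rfl⟩
  · exact Or.inr ⟨Z, hZ'.1.1, rfl⟩

/-- **The monodromy-weight conjecture.** -/
theorem pure (hS : S.Known q) (hX : S.Decomposition q X) (ℓ : I) {j : ℕ}
    (hj : j ≤ 4 ∨ 2 * X.dim ≤ j + 4) : (S.A ℓ).PureIn q X j := by
  have := hS.closed ℓ
  exact main (𝒞 := {Y | ∀ ℓ, (S.A ℓ).MW q Y}) (hS.local_known ℓ)
    (fun Y hY => hS.surfaces ℓ Y hY) (fun Y hY => hY ℓ) (hasDecomposition hX ℓ) (by omega)

end Pool.Agent.U548.EL
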