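import Pool.Agent.U548.DG.Defs

/-!
# Local Euler factors of varieties with small Chow groups: definitions

The base field `k` is a local field (for example `ℚ_p`, or the completion of a number field), whose
residue field has `q` elements. For each `ℓ` of a set of prime numbers (for example all `ℓ ≠ p`) a
Weil cohomology theory `W ℓ` for a class of smooth projective varieties over `k` is given: the
`ℓ`-adic cohomology `H(X) = H^*(X_{\bar k}, \bar ℚ_ℓ)`.
-/

set_option autoImplicit false

open CategoryTheory AlgebraicGeometry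

universe u v w

namespace Pool.Agent.U548.EL

open Pool.Agent.H914 Pool.Agent.H914.VarClass Pool.Agent.H914.VarClass.Obj
  Pool.Agent.H914.WeilCohomology Pool.Agent.Y163.MW Pool.Agent.U644.LT Pool.Agent.U548.DG

section Linear

variable {K V : Type*} [Field K] [AddCommGroup V] [Module K V]

/-- The trace of `T` on the subspace `U` (which is stable under `T`) is `t`. -/
def IsTraceOn (U : Submodule K V) (T : Module.End K V) (t : K) : Prop :=
  ∀ h : ∀ x ∈ U, T x ∈ U, LinearMap.trace K U (T.restrict h) = t

/-- The operator `F ^ m P T`. -/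
def mix (F P T : Module.End K V) (m : ℕ) : Module.End K V := F ^ m * (P * T)

/-- The alternating sum of the traces of `F ^ m P T` on the `gr i`, `i ≤ 2 n`, is `s`. -/
def IsSuperTrace (gr : ℕ → Submodule K V) (n : ℕ) (F P T : Module.End K V) (m : ℕ) (s : K) :
    Prop :=
  ∃ τ : ℕ → K, (∀ i, IsTraceOn (gr i) (mix F P T m) (τ i)) ∧
    s = ∑ i ∈ Finset.range (2 * n + 1), (-1) ^ i * τ i

/-- `T` is idempotent. -/
def IsIdem (T : Module.End K V) : Prop := ∀ x, T (T x) = T x

/-- The eigenvalues of `F` are algebraic integers. -/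
def IntegralEigenvalues (F : Module.End K V) : Prop :=
  ∀ (α : K) (x : V), x ≠ 0 → F x = α • x → IsIntegral ℤ α

/-- `T` is the projection to `gr i`. -/
def IsProjector (gr : ℕ → Submodule K V) (i : ℕ) (T : Module.End K V) : Prop :=
  ∀ j, ∀ x ∈ gr j, T x = if j = i then x else 0

/-- The operator `P` is idempotent, respects the degrees, and commutes with `F` and `N`. -/
structure IsPart (gr : ℕ → Submodule K V) (F N P : Module.End K V) : Prop where
  idem : IsIdem P
  deg : Respects gr P
  F_comm : Commutes P F F
  N_comm : Commutes P N N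

/-- The vectors of `U` with `N ^ s x = 0`, `P x = x` and `e x = x`. -/
def fixedIn (U : Submodule K V) (N P e : Module.End K V) (s : ℕ) : Submodule K V :=
  U ⊓ LinearMap.ker (N ^ s) ⊓ LinearMap.ker (P - 1) ⊓ LinearMap.ker (e - 1)

/-- The polynomial `L` is `det (1 - T F)` for the action of `F` on the vectors of `U` with
`N ^ s x = 0`, `P x = x` and `e x = x`. -/
def IsFactor [Module.Finite K V] (U : Submodule K V) (F N P e : Module.End K V) (s : ℕ)
    (L : Polynomial K) : Prop :=
  ∃ h : ∀ x ∈ fixedIn U N P e s, F x ∈ fixedIn U N P e s,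
    L = (LinearMap.charpoly (F.restrict h)).reverse

/-- The sum of the operators of the list is the identity. -/
def SumsToOne (l : List (Module.End K V)) : Prop := l.sum = 1

end Linear

variable {k : Type u} [Field k] {𝒱 : VarClass k} {ops : CycleOps 𝒱}

/-- Linear maps from the cohomology of `X` to that of `Y`. -/
abbrev WMap (W : WeilCohomology.{u, v} ops) (X Y : 𝒱.Obj) : Type v := W.H X →ₗ[W.K] W.H Y

/-- The composition. -/
def wcomp (W : WeilCohomology.{u, v} ops) {X Y Z : 𝒱.Obj} (g : WMap W Y Z) (f : WMap W X Y) :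
    WMap W X Z := comp2 g f

/-- The operator given by a cycle on `X × Y`. -/
noncomputable def wact (W : WeilCohomology.{u, v} ops) {X Y : 𝒱.Obj} (z : (X.prod Y).Cycles) :
    WMap W X Y := W.corr (W.cl _ z)

/-- The pull-back. -/
def wpull (W : WeilCohomology.{u, v} ops) {X Y : 𝒱.Obj} (f : X ⟶ Y) : WMap W Y X :=
  (W.map f).toLinearMap

/-- For all `ℓ` of an index set `I`: the `ℓ`-adic cohomology, the operators `F` and `N`, and the
projection `P` to the vectors which are invariant under the finite part of the inertia group, that is,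
under the finite group through which inertia acts in the Weil-Deligne representation. So
`{x | N x = 0, P x = x}` is the space of invariants of the inertia group. -/
structure EllSystem (ops : CycleOps 𝒱) (I : Type w) where
  /-- the `ℓ`-adic cohomology -/
  W : I → WeilCohomology.{u, v} ops
  /-- the Frobenius and the monodromy operator -/
  A : ∀ ℓ, LocalAction (W ℓ)
  /-- the projection to the invariants of the finite part of inertia -/
  P : ∀ (ℓ : I) (X : 𝒱.Obj), WMap (W ℓ) X X

variable {I : Type w}

/-- The Künneth projector of degree `i` of `X` is given by a cycle on `X × X`, the same one for all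
`ℓ`. -/
def EllSystem.AlgProj (S : EllSystem.{u, v, w} ops I) (X : 𝒱.Obj) (i : ℕ) : Prop :=
  ∃ z : (X.prod X).Cycles, (X.prod X).IsCyc X.dim z ∧
    ∀ ℓ, IsProjector ((S.W ℓ).gr X) i (wact (S.W ℓ) z)

/-- The alternating sum of the traces of `F ^ m P z` on the `H^i(X)` is the rational number `t`, for
all `ℓ`. -/
def EllSystem.HasTrace (S : EllSystem.{u, v, w} ops I) {X : 𝒱.Obj} (z : (X.prod X).Cycles)
    (m : ℕ) (t : ℚ) : Prop :=
  ∀ ℓ, IsSuperTrace ((S.W ℓ).gr X) X.dim ((S.A ℓ).F X) (S.P ℓ X) (wact (S.W ℓ) z) m
    (t : (S.W ℓ).K)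

/-- The known properties:

* for each `ℓ` those of `LocalAction.Known`, and the coefficient field is algebraically closed;
* `P` is a projection which commutes with `F`, `N` and the operators given by cycles;
* the eigenvalues of `F` are algebraic integers (SGA 7 XXI);
* the alternating sum of the traces of `F ^ m P z` on the `H^i(X)`, `z` a cycle of codimension
  `dim X` on `X × X`, is a rational number which does not depend on `ℓ` (T. Saito);
* the Künneth projectors of degree `i` are given by cycles for surfaces and curves, and for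
  `i ≤ 1`, `i ≥ 2 dim - 1` (Grothendieck, Kleiman, Murre);
* the monodromy-weight conjecture holds in dimension at most two (Rapoport-Zink, de Jong). -/
structure EllSystem.Known (S : EllSystem.{u, v, w} ops I) (q : ℕ) : Prop where
  local_known : ∀ ℓ, (S.A ℓ).Known q
  closed : ∀ ℓ, IsAlgClosed (S.W ℓ).K
  part : ∀ ℓ X, IsPart ((S.W ℓ).gr X) ((S.A ℓ).F X) ((S.A ℓ).N X) (S.P ℓ X)
  part_act : ∀ (ℓ : I) {X Y : 𝒱.Obj} (p : ℕ) (z : (X.prod Y).Cycles), (X.prod Y).IsCyc p z →
    wcomp (S.W ℓ) (S.P ℓ Y) (wact (S.W ℓ) z) = wcomp (S.W ℓ) (wact (S.W ℓ) z) (S.P ℓ X)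
  integral : ∀ (ℓ : I) (X : 𝒱.Obj), IntegralEigenvalues ((S.A ℓ).F X)
  trace : ∀ (X : 𝒱.Obj) (z : (X.prod X).Cycles), (X.prod X).IsCyc X.dim z → ∀ m : ℕ,
    ∃ t : ℚ, S.HasTrace z m t
  kunneth : ∀ (X : 𝒱.Obj) (i : ℕ), X.dim ≤ 2 ∨ i ≤ 1 ∨ 2 * X.dim ≤ i + 1 → S.AlgProj X i
  surfaces : ∀ (ℓ : I) (X : 𝒱.Obj), X.dim ≤ 2 → (S.A ℓ).MW q X

/-- The variety `Y` is good: the monodromy-weight conjecture holds for `Y` (for all `ℓ`), and the
Künneth projectors of `Y` are given by cycles. -/
def EllSystem.Good (S : EllSystem.{u, v, w} ops I) (q : ℕ) (Y : 𝒱.Obj) : Prop :=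
  (∀ ℓ, (S.A ℓ).MW q Y) ∧ ∀ i, S.AlgProj Y i

/-- A piece of the diagonal of `X`: a cycle supported on `S × T`, or a pair of correspondences
from `X` to `Y` and from `Y` to `X`. -/
inductive Piece (X : 𝒱.Obj) where
  /-- a supported cycle -/
  | supported (Z : Supported X) : Piece X
  /-- a pair of correspondences -/
  | through (Z : Through X) : Piece X

/-- The operator on the cohomology: the composition `H(X) → H(S) → H(T) → H(X)` of the pull-back, of
the operator of the cycle and of the push-forward, or the composition `H(X) → H(Y) → H(X)`. -/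
noncomputable def Piece.op (W : WeilCohomology.{u, v} ops) {X : 𝒱.Obj} : Piece X → WMap W X X
  | .supported Z => wcomp W (W.push Z.w) (wcomp W (wact W Z.z) (wpull W Z.v))
  | .through Z => wcomp W (wact W Z.z') (wact W Z.z)

/-- The condition for a piece: the cycle is supported on `S × T` with `dim S + dim T ≤ dim X + 2` or
`dim T ≤ dim X - 1`; or the correspondences go through a good variety `Y`, and their composition is
of degree zero. -/
def EllSystem.Allowed (S : EllSystem.{u, v, w} ops I) (q : ℕ) {X : 𝒱.Obj} : Piece X → Prop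
  | .supported Z => Z.S.dim + Z.T.dim ≤ X.dim + 2 ∨ Z.T.dim + 1 ≤ X.dim
  | .through Z => S.Good q Z.Y ∧ Z.p + Z.p' = X.dim + Z.Y.dim

/-- **Decomposition of the diagonal**: the identity of the cohomology of `X` is, for all `ℓ`, the sum
of the operators given by finitely many allowed pieces. By the theorem of Bloch and Srinivas there is
such a decomposition if the group `CH_0(X)` (over an algebraically closed field of infinite
transcendence degree, with rational coefficients) is supported on a surface, or more generally if it is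
generated by the images of the `CH_0(Y)` for good varieties `Y` and of the zero-cycles on a
surface. -/
def EllSystem.Decomposition (S : EllSystem.{u, v, w} ops I) (q : ℕ) (X : 𝒱.Obj) : Prop :=
  ∃ l : List (Piece X), (∀ Z ∈ l, S.Allowed q Z) ∧
    ∀ ℓ, SumsToOne (l.map (Piece.op (S.W ℓ)))

/-- The polynomial `det (1 - T F)` for the action of `F` on the vectors of the image of `e` on
`H^i(X)` which are invariant under the finite part of inertia and killed by `N ^ s` is `L`. For
`s = 1` it is the local Euler factor of the motive `(X, e)` in degree `i`. -/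
def EllSystem.IsLocalFactor (S : EllSystem.{u, v, w} ops I) (ℓ : I) (X : 𝒱.Obj)
    (e : (X.prod X).Cycles) (i s : ℕ) (L : Polynomial (S.W ℓ).K) : Prop :=
  IsFactor ((S.W ℓ).gr X i) ((S.A ℓ).F X) ((S.A ℓ).N X) (S.P ℓ X) (wact (S.W ℓ) e) s L

/-- The cycle `e` of codimension `dim X` on `X × X` is a projector on the cohomology. -/
def EllSystem.IsMotive (S : EllSystem.{u, v, w} ops I) (X : 𝒱.Obj) (e : (X.prod X).Cycles) :
    Prop :=
  (X.prod X).IsCyc X.dim e ∧ ∀ ℓ, IsIdem (wact (S.W ℓ) e)

/-- For all the motives `(X, e)` and all `s` the polynomial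
`det (1 - T F)` of `IsLocalFactor` has integral coefficients and does not depend on `ℓ`. -/
def EllSystem.Independent (S : EllSystem.{u, v, w} ops I) (X : 𝒱.Obj) (i : ℕ) : Prop :=
  ∀ (e : (X.prod X).Cycles), S.IsMotive X e → ∀ s : ℕ,
    ∃ L : Polynomial ℤ, ∀ ℓ, S.IsLocalFactor ℓ X e i s (L.map (Int.castRingHom (S.W ℓ).K))

end Pool.Agent.U548.EL
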