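import Pool.Agent.U548.EL.Newt
import Pool.Agent.U865.EF.Fac

/-!
# Characteristic polynomials with rational coefficients
-/

set_option autoImplicit false

open Module Polynomial

namespace Pool.Agent.U548.EL

section Traces

variable {I : Type*} {K : I → Type*} [∀ i, Field (K i)] [∀ i, CharZero (K i)]

/-- Rational traces: the characteristic polynomial is rational and independent of `i`. -/
theorem exists_charpoly_matrix {d : ℕ} (A : ∀ i, Matrix (Fin d) (Fin d) (K i)) (t : ℕ → ℚ)
    (h : ∀ i k, (A i ^ k).trace = (t k : K i)) :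
    ∃ C : ℚ[X], ∀ i, (A i).charpoly = C.map (algebraMap ℚ (K i)) := by
  have h1 : ∀ k : ℕ, ∃ c : ℚ, ∀ i, (A i).charpolyRev.coeff k = (c : K i) := by
    intro k
    induction k using Nat.strong_induction_on with
    | _ k ih =>
      rcases k with _ | k
      · refine ⟨1, fun i => ?_⟩
        rw [coeff_zero_eq_eval_zero, Matrix.eval_charpolyRev, Rat.cast_one]
      · choose! c hc using ih
        refine ⟨(- ∑ p ∈ Finset.HasAntidiagonal.antidiagonal k, c p.1 * t (p.2 + 1)) / ((k : ℚ) + 1),
          fun i => ?_⟩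
        have hk : ((k : K i) + 1) ≠ 0 := by exact_mod_cast Nat.succ_ne_zero k
        rw [Rat.cast_div, eq_div_iff (by exact_mod_cast hk), Rat.cast_add, Rat.cast_natCast,
          Rat.cast_one, newton, Rat.cast_neg, Rat.cast_sum]
        congr 1
        refine Finset.sum_congr rfl fun p hp => ?_
        have h3 := (Finset.HasAntidiagonal.mem_antidiagonal.mp hp)
        rw [hc p.1 (by omega), h, Rat.cast_mul]
  choose c hc using h1
  refine ⟨∑ j ∈ Finset.range (d + 1), C (c (d - j)) * X ^ j, fun i => ?_⟩
  have hdeg : (A i).charpoly.natDegree = d := by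
    rw [Matrix.charpoly_natDegree_eq_dim, Fintype.card_fin]
  ext j
  rw [Polynomial.coeff_map, Polynomial.finsetSum_coeff]
  have h2 : ∀ b, (C (c (d - b)) * X ^ b : ℚ[X]).coeff j = if j = b then c (d - b) else 0 := by
    intro b
    rw [coeff_C_mul, coeff_X_pow]
    split_ifs <;> simp
  simp only [h2]
  rw [Finset.sum_ite_eq]
  by_cases hj : j ≤ d
  · rw [if_pos (Finset.mem_range.2 (by omega)), eq_ratCast, ← hc, ← Matrix.reverse_charpoly,
      coeff_reverse, hdeg, Polynomial.revAt_le (Nat.sub_le d j)]
    congr 1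
    omega
  · rw [if_neg (by rw [Finset.mem_range]; omega), map_zero]
    exact coeff_eq_zero_of_natDegree_lt (by rw [hdeg]; omega)

/-- The same for endomorphisms. -/
theorem exists_charpoly {V : I → Type*} [∀ i, AddCommGroup (V i)] [∀ i, Module (K i) (V i)]
    [∀ i, Module.Finite (K i) (V i)] (F : ∀ i, Module.End (K i) (V i)) (t : ℕ → ℚ)
    (h : ∀ i k, LinearMap.trace (K i) (V i) (F i ^ k) = (t k : K i)) :
    ∃ C : ℚ[X], ∀ i, (F i).charpoly = C.map (algebraMap ℚ (K i)) := by
  rcases isEmpty_or_nonempty I with hI | ⟨⟨i₀⟩⟩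
  · exact ⟨0, fun i => (hI.false i).elim⟩
  have hdim : ∀ i, finrank (K i) (V i) = finrank (K i₀) (V i₀) := by
    intro i
    have h1 : ∀ i, ((finrank (K i) (V i) : ℕ) : ℚ) = t 0 := by
      intro i
      have h2 := h i 0
      rw [pow_zero, LinearMap.trace_one] at h2
      have h3 : (((finrank (K i) (V i) : ℕ) : ℚ) : K i) = (t 0 : K i) := by
        rw [Rat.cast_natCast]
        exact h2
      exact Rat.cast_injective h3
    exact_mod_cast (h1 i).trans (h1 i₀).symm
  let b : ∀ i, Basis (Fin (finrank (K i₀) (V i₀))) (K i) (V i) := fun i =>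
    Module.finBasisOfFinrankEq (K i) (V i) (hdim i)
  obtain ⟨C, hC⟩ := exists_charpoly_matrix (fun i => LinearMap.toMatrix (b i) (b i) (F i)) t (by
    intro i k
    rw [← h i k, LinearMap.trace_eq_matrix_trace (K i) (b i), LinearMap.toMatrix_pow])
  refine ⟨C, fun i => ?_⟩
  rw [← hC i, LinearMap.charpoly_toMatrix]

end Traces

section Mult

variable {K V : Type*} [Field K] [AddCommGroup V] [Module K V] [Module.Finite K V]

/-- The multiplicity of an eigenvalue on a stable subspace. -/
lemma rootMultiplicity_restrict {F : Module.End K V} {U : Submodule K V} (h : ∀ x ∈ U, F x ∈ U)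
    (α : K) : (F.restrict h).charpoly.rootMultiplicity α =
      finrank K (U ⊓ F.maxGenEigenspace α : Submodule K V) := by
  rw [← LinearMap.finrank_maxGenEigenspace_eq]
  have h1 : (Module.End.maxGenEigenspace (F.restrict h) α).map U.subtype =
      U ⊓ F.maxGenEigenspace α := by
    unfold Module.End.maxGenEigenspace
    rw [Module.End.genEigenspace_restrict, Submodule.map_comap_subtype]
  rw [← h1]
  exact (Submodule.finrank_map_subtype_eq _ _).symm

/-- Monic polynomials with the same roots. -/
lemma eq_of_rootMultiplicity [IsAlgClosed K] {f g : K[X]} (hf : f.Monic) (hg : g.Monic)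
    (h : ∀ α, f.rootMultiplicity α = g.rootMultiplicity α) : f = g := by
  classical
  have h1 : f.roots = g.roots := by
    ext α
    rw [count_roots, count_roots, h]
  have h2 := (IsAlgClosed.splits f).eq_prod_roots
  have h3 := (IsAlgClosed.splits g).eq_prod_roots
  rw [hf.leadingCoeff] at h2
  rw [hg.leadingCoeff, ← h1] at h3
  rw [h2, h3]

/-- **The characteristic polynomial on the kernel of `N`.** -/
theorem charpoly_ker [CharZero K] [IsAlgClosed K] {q : ℕ} (hq : q ≠ 0) {F N : Module.End K V}
    (hNF : ∀ x, N (F x) = (q : K) • F (N x)) {U E : Submodule K V} (hU : ∀ x ∈ U, F x ∈ U)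
    (hNU : ∀ x ∈ U, N x ∈ U) (hE : ∀ x ∈ E, F x ∈ E) (hEU : ∀ x, x ∈ E ↔ x ∈ U ∧ N x = 0)
    (hα : ∀ α : K, (∀ x ∈ U ⊓ F.maxGenEigenspace α, N x = 0 → x = 0) ∨
      ∀ y ∈ U ⊓ F.maxGenEigenspace (α / q), ∃ x ∈ U ⊓ F.maxGenEigenspace α, N x = y)
    {C : ℚ[X]} (hC : (F.restrict hU).charpoly = C.map (algebraMap ℚ K)) :
    (F.restrict hE).charpoly = (C / Pool.Agent.U865.EF.common C q).map (algebraMap ℚ K) := by
  classical
  have hCm : C.Monic := by
    apply Polynomial.monic_of_injective (algebraMap ℚ K).injective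
    rw [← hC]
    exact LinearMap.charpoly_monic _
  have hG := Pool.Agent.U865.EF.common_monic hCm.ne_zero q
  have hP := Pool.Agent.U865.EF.quot_monic hCm q
  have hmult : ∀ α, (C.map (algebraMap ℚ K)).rootMultiplicity α =
      finrank K (U ⊓ F.maxGenEigenspace α : Submodule K V) := by
    intro α
    rw [← hC, rootMultiplicity_restrict]
  refine eq_of_rootMultiplicity (LinearMap.charpoly_monic _) (hP.map _) fun α => ?_
  rw [rootMultiplicity_restrict]
  -- the multiplicities of the quotient
  have h1 : (Pool.Agent.U865.EF.common C q * (C / Pool.Agent.U865.EF.common C q)).map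
      (algebraMap ℚ K) = C.map (algebraMap ℚ K) := by
    rw [Pool.Agent.U865.EF.quot_mul hCm.ne_zero q]
  have h2 := congrArg (fun f => Polynomial.rootMultiplicity α f) h1
  rw [Polynomial.map_mul, Polynomial.rootMultiplicity_mul (mul_ne_zero (hG.map _).ne_zero
    (hP.map _).ne_zero), Pool.Agent.U865.EF.mult_common hCm.ne_zero hq, hmult, hmult] at h2
  -- the kernel
  set Vα : Submodule K V := U ⊓ F.maxGenEigenspace α with hVα
  set Vβ : Submodule K V := U ⊓ F.maxGenEigenspace (α / q) with hVβ
  have hmap : Vα.map N ≤ Vβ := by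
    rintro _ ⟨x, ⟨hx1, hx2⟩, rfl⟩
    refine ⟨hNU x hx1, ?_⟩
    have hq0 : (q : K) ≠ 0 := Nat.cast_ne_zero.2 hq
    rw [SetLike.mem_coe, Module.End.mem_maxGenEigenspace] at hx2 ⊢
    obtain ⟨n, hn⟩ := hx2
    refine ⟨n, ?_⟩
    have key : ∀ (n : ℕ) (y : V), N (((F - α • (1 : Module.End K V)) ^ n) y) =
        (q : K) ^ n • ((F - (α / q) • (1 : Module.End K V)) ^ n) (N y) := by
      intro n
      induction n with
      | zero => intro y; rw [pow_zero, pow_zero, pow_zero, one_smul]; rfl
      | succ n ih =>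
        intro y
        have e : N ((F - α • (1 : Module.End K V)) y) =
            (q : K) • (F - (α / q) • (1 : Module.End K V)) (N y) := by
          rw [LinearMap.sub_apply, LinearMap.sub_apply, map_sub, hNF, LinearMap.smul_apply,
            LinearMap.smul_apply, Module.End.one_apply, Module.End.one_apply, map_smul, smul_sub,
            smul_smul, mul_div_cancel₀ _ hq0]
        rw [pow_succ, Module.End.mul_apply, ih, e, map_smul, smul_smul, ← pow_succ,
          pow_succ (F - (α / q) • (1 : Module.End K V)), Module.End.mul_apply]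
    have h3 := key n x
    rw [hn, map_zero] at h3
    exact (smul_eq_zero.1 h3.symm).resolve_left (pow_ne_zero _ hq0)
  have hker : (E ⊓ F.maxGenEigenspace α : Submodule K V) = Vα ⊓ LinearMap.ker N := by
    ext x
    simp only [hVα, Submodule.mem_inf, LinearMap.mem_ker, hEU]
    tauto
  have hrank : finrank K (Vα.map N) + finrank K (E ⊓ F.maxGenEigenspace α : Submodule K V) =
      finrank K Vα := by
    let f : Vα →ₗ[K] V := N.domRestrict Vα
    have e1 : LinearMap.range f = Vα.map N := LinearMap.range_domRestrict _ _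
    have e2 := LinearMap.finrank_range_add_finrank_ker f
    have e3 : (LinearMap.ker f).map Vα.subtype = Vα ⊓ LinearMap.ker N := by
      ext x
      constructor
      · rintro ⟨y, hy, rfl⟩
        exact ⟨y.2, hy⟩
      · rintro ⟨hx, hx'⟩
        exact ⟨⟨x, hx⟩, hx', rfl⟩
    rw [e1] at e2
    rw [hker, ← e3, Submodule.finrank_map_subtype_eq]
    exact e2
  rcases hα α with h | h
  · -- `N` is injective
    have e1 : (E ⊓ F.maxGenEigenspace α : Submodule K V) = ⊥ := by
      rw [hker, eq_bot_iff]
      rintro x ⟨hx, hx'⟩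
      exact h x hx hx'
    have e2 := Submodule.finrank_mono hmap
    rw [e1, finrank_bot] at hrank ⊢
    omega
  · have e1 : Vα.map N = Vβ := by
      refine le_antisymm hmap fun y hy => ?_
      obtain ⟨x, hx, hxy⟩ := h y hy
      exact ⟨x, hx, hxy⟩
    rw [e1] at hrank
    omega

/-- Integral coefficients. -/
theorem exists_integral [CharZero K] [IsAlgClosed K] {P : ℚ[X]} (hP : P.Monic)
    (h : ∀ α : K, (P.map (algebraMap ℚ K)).rootMultiplicity α ≠ 0 → IsIntegral ℤ α) :
    ∃ P' : ℤ[X], P'.map (Int.castRingHom ℚ) = P := by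
  have h1 : ∀ i, IsIntegral ℤ ((P.map (algebraMap ℚ K)).coeff i) := by
    intro i
    refine Polynomial.isIntegral_coeff_of_factors _ ?_ (IsAlgClosed.splits _) ?_ i
    · rw [(hP.map _).leadingCoeff]
      exact isIntegral_one
    · intro α hα
      apply h
      exact ((Polynomial.rootMultiplicity_pos (hP.map _).ne_zero).2 hα).ne'
  have h2 : ∀ i, ∃ z : ℤ, algebraMap ℤ ℚ z = P.coeff i := by
    intro i
    have h3 := h1 i
    rw [Polynomial.coeff_map] at h3
    have h4 : IsIntegral ℤ (P.coeff i) :=
      (isIntegral_algebraMap_iff (algebraMap ℚ K).injective).1 h3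
    exact IsIntegrallyClosed.isIntegral_iff.1 h4
  have h3 : P ∈ Polynomial.lifts (algebraMap ℤ ℚ) :=
    (Polynomial.lifts_iff_coeff_lifts _).2 fun i => h2 i
  exact (Polynomial.mem_lifts _).1 h3

end Mult

end Pool.Agent.U548.EL
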