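import Pool.Agent.U548.DG.Lin

/-!
# mw purity on direct factors of `H^j`
-/

set_option autoImplicit false

open Module

namespace Pool.Agent.U548.EL

universe u v w

open Pool.Agent.Y143 Pool.Agent.Y136.UB Pool.Agent.Y163.MW Pool.Agent.U644.LT Pool.Agent.U548.DG

section Twist

variable {K V : Type*} [Field K] [AddCommGroup V] [Module K V]

lemma twist_pow {F T : Module.End K V} {c : K} (hc : c ≠ 0) (h : ∀ x, T (F x) = c • F (T x))
    (α : K) (n : ℕ) : ∀ y : V, T (((F - α • (1 : Module.End K V)) ^ n) y) =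
      c ^ n • ((F - (α / c) • (1 : Module.End K V)) ^ n) (T y) := by
  induction n with
  | zero => intro y; rw [pow_zero, pow_zero, pow_zero, one_smul]; rfl
  | succ n ih =>
    intro y
    have e : T ((F - α • (1 : Module.End K V)) y) =
        c • (F - (α / c) • (1 : Module.End K V)) (T y) := by
      rw [LinearMap.sub_apply, LinearMap.sub_apply, map_sub, h, LinearMap.smul_apply,
        LinearMap.smul_apply, Module.End.one_apply, Module.End.one_apply, map_smul, smul_sub,
        smul_smul, mul_div_cancel₀ _ hc]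
    rw [pow_succ, Module.End.mul_apply, ih, e, map_smul, smul_smul, ← pow_succ,
      pow_succ (F - (α / c) • (1 : Module.End K V)), Module.End.mul_apply]

lemma mem_max_of_twist {F T : Module.End K V} {c : K} (hc : c ≠ 0)
    (h : ∀ x, T (F x) = c • F (T x)) {α : K} {x : V} (hx : x ∈ F.maxGenEigenspace α) :
    T x ∈ F.maxGenEigenspace (α / c) := by
  rw [Module.End.mem_maxGenEigenspace] at hx ⊢
  obtain ⟨n, hn⟩ := hx
  refine ⟨n, ?_⟩
  have h1 := twist_pow hc h α n x
  rw [hn, map_zero] at h1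
  exact (smul_eq_zero.1 h1.symm).resolve_left (pow_ne_zero _ hc)

lemma twisted_pow {F N : Module.End K V} {c : K} (h : ∀ x, N (F x) = c • F (N x)) (a : ℕ) :
    ∀ x, (N ^ a) (F x) = c ^ a • F ((N ^ a) x) := by
  induction a with
  | zero => intro x; rw [pow_zero, pow_zero, one_smul]; rfl
  | succ a ih =>
    intro x
    rw [pow_succ', Module.End.mul_apply, ih, map_smul, h, smul_smul, ← pow_succ,
      Module.End.mul_apply]

lemma comm_pow {e N : Module.End K V} (h : ∀ x, e (N x) = N (e x)) (a : ℕ) :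
    ∀ x, e ((N ^ a) x) = (N ^ a) (e x) := by
  induction a with
  | zero => intro x; rfl
  | succ a ih =>
    intro x
    rw [pow_succ', Module.End.mul_apply, h, ih, Module.End.mul_apply]

end Twist

variable {Ω : Type w} [Field Ω] [CharZero Ω] {R : Coh.{v, w} Ω} {q : ℕ}

/-- Operators which commute with Frobenius preserve the parts of given weight. -/
lemma exc_comm {j : ℕ} {c : ℤ} {e : Module.End Ω R.V} (hg : ∀ x ∈ R.gr j, e x ∈ R.gr j)
    (hF : ∀ x, e (R.F x) = R.F (e x)) {x : R.V} (hx : x ∈ R.exc q j c) : e x ∈ R.exc q j c := by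
  have hle : R.exc q j c ≤ (R.exc q j c).comap e := by
    refine iSup₂_le fun α hα => ?_
    intro y hy
    obtain ⟨hy1, hy2⟩ := Submodule.mem_inf.1 hy
    refine Submodule.mem_iSup_of_mem _ (Submodule.mem_iSup_of_mem hα (Submodule.mem_inf.2
      ⟨hg y hy1, ?_⟩))
    have h1 := mem_max_of_twist (F := R.F) (T := e) (c := 1) one_ne_zero
      (fun x => by rw [one_smul]; exact hF x) hy2
    rwa [div_one] at h1
  exact hle hx

/-- **The alternative.** -/
theorem inj_or_surj [IsAlgClosed Ω] (hq : 1 < q) (hR : IsPre R q) {j : ℕ} (hp : R.MWPure q j)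
    {U : Submodule Ω R.V} {e : Module.End Ω R.V} (hU : ∀ x, x ∈ U ↔ x ∈ R.gr j ∧ e x = x)
    (heg : ∀ x ∈ R.gr j, e x ∈ R.gr j) (heF : ∀ x, e (R.F x) = R.F (e x))
    (heN : ∀ x, e (R.N x) = R.N (e x)) (s : ℕ) (α : Ω) :
    (∀ x ∈ U ⊓ R.F.maxGenEigenspace α, (R.N ^ s) x = 0 → x = 0) ∨
      ∀ y ∈ U ⊓ R.F.maxGenEigenspace (α / (q : Ω) ^ s),
        ∃ x ∈ U ⊓ R.F.maxGenEigenspace α, (R.N ^ s) x = y := by
  have hq0 : (q : Ω) ≠ 0 := Nat.cast_ne_zero.2 (by omega)
  rw [mwPure_iff hq hR] at hp
  by_cases hw : ∃ w : ℤ, IsWeilNumber q w (α / (q : Ω) ^ s)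
  · obtain ⟨w, hw⟩ := hw
    obtain ⟨c, hc⟩ : ∃ c : ℤ, w = j + c := ⟨w - j, by ring⟩
    subst hc
    have hα : IsWeilNumber q ((j : ℤ) + (c + 2 * s)) α := by
      have h1 := hw.twist (by omega : q ≠ 0) s
      rwa [zpow_natCast, mul_div_cancel₀ _ (pow_ne_zero s hq0),
        show (j : ℤ) + c + 2 * s = j + (c + 2 * s) by ring] at h1
    by_cases hc1 : -(s : ℤ) ≤ c
    · -- injective
      left
      rintro x ⟨hx1, hx2⟩ h0
      obtain ⟨a, ha⟩ : ∃ a : ℕ, (a : ℤ) = c + 2 * s := ⟨(c + 2 * s).toNat, by omega⟩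
      have hx : x ∈ R.exc q j a := by
        rw [ha]
        exact Submodule.mem_iSup_of_mem _ (Submodule.mem_iSup_of_mem hα (Submodule.mem_inf.2
          ⟨((hU x).1 hx1).1, hx2⟩))
      refine (hp a).1 x hx ?_
      obtain ⟨b, rfl⟩ : ∃ b, a = b + s := ⟨a - s, by omega⟩
      rw [pow_add, Module.End.mul_apply, h0, map_zero]
    · -- surjective
      right
      rintro y ⟨hy1, hy2⟩
      obtain ⟨a, ha⟩ : ∃ a : ℕ, (a : ℤ) = -c := ⟨(-c).toNat, by omega⟩
      have hy : y ∈ R.exc q j (-(a : ℤ)) := by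
        rw [ha, neg_neg]
        exact Submodule.mem_iSup_of_mem _ (Submodule.mem_iSup_of_mem hw (Submodule.mem_inf.2
          ⟨((hU y).1 hy1).1, hy2⟩))
      obtain ⟨x, hx, hxy⟩ := (hp a).2 y hy
      have hxj : x ∈ R.gr j := exc_le j _ hx
      -- `x` is a generalized eigenvector
      have hx2 : x ∈ R.F.maxGenEigenspace (α / (q : Ω) ^ s * (q : Ω) ^ a) := by
        obtain ⟨n, hn⟩ := (Module.End.mem_maxGenEigenspace _ _ _).1 hy2
        refine (Module.End.mem_maxGenEigenspace _ _ _).2 ⟨n, ?_⟩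
        have h1 := twist_pow (pow_ne_zero a hq0) (twisted_pow hR.N_F a)
          (α / (q : Ω) ^ s * (q : Ω) ^ a) n x
        rw [mul_div_cancel_right₀ _ (pow_ne_zero a hq0), hxy, hn, smul_zero] at h1
        refine (hp a).1 _ ?_ h1
        have h2 : ∀ n : ℕ, ((R.F - (α / (q : Ω) ^ s * (q : Ω) ^ a) •
            (1 : Module.End Ω R.V)) ^ n) x ∈ R.exc q j a := by
          intro n
          induction n with
          | zero => rw [pow_zero]; exact hx
          | succ n ih =>
            rw [pow_succ', Module.End.mul_apply, LinearMap.sub_apply, LinearMap.smul_apply,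
              Module.End.one_apply]
            exact Submodule.sub_mem _ (exc_comm (hR.F_gr j) (fun _ => rfl) ih)
              (Submodule.smul_mem _ _ ih)
        exact h2 n
      -- `x` is fixed by `e`
      have hx3 : e x = x := by
        rw [← sub_eq_zero]
        refine (hp a).1 _ (Submodule.sub_mem _ (exc_comm heg heF hx) hx) ?_
        rw [map_sub, ← comm_pow heN, hxy, ((hU y).1 hy1).2, sub_self]
      obtain ⟨b, rfl⟩ : ∃ b, a = b + s := ⟨a - s, by omega⟩
      refine ⟨(R.N ^ b) x, ⟨(hU _).2 ⟨N_pow_gr hR b hxj, ?_⟩, ?_⟩, ?_⟩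
      · rw [comm_pow heN, hx3]
      · have h1 := mem_max_of_twist (pow_ne_zero b hq0) (twisted_pow hR.N_F b) hx2
        have e1 : α / (q : Ω) ^ s * (q : Ω) ^ (b + s) / (q : Ω) ^ b = α := by
          rw [pow_add]
          field_simp
        rwa [e1] at h1
      · rw [← Module.End.mul_apply, ← pow_add, add_comm, hxy]
  · -- there are no vectors
    right
    rintro y ⟨hy1, hy2⟩
    have hy0 : y = 0 := by
      by_contra hne
      obtain ⟨n, hn⟩ := (Module.End.mem_maxGenEigenspace _ _ _).1 hy2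
      have key : ∀ n : ℕ, ∀ y ∈ R.gr j, y ≠ 0 →
          ((R.F - (α / (q : Ω) ^ s) • (1 : Module.End Ω R.V)) ^ n) y = 0 → False := by
        intro n
        induction n with
        | zero => intro y _ hne h; exact hne h
        | succ n ih =>
          intro y hy hne h
          rw [pow_succ, Module.End.mul_apply] at h
          by_cases h0 : (R.F - (α / (q : Ω) ^ s) • (1 : Module.End Ω R.V)) y = 0
          · refine hw (hR.weil j (α / (q : Ω) ^ s) y hy hne ?_)
            rw [LinearMap.sub_apply, LinearMap.smul_apply, Module.End.one_apply] at h0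
            exact sub_eq_zero.1 h0
          · refine ih _ ?_ h0 h
            rw [LinearMap.sub_apply, LinearMap.smul_apply, Module.End.one_apply]
            exact Submodule.sub_mem _ (hR.F_gr j y hy) (Submodule.smul_mem _ _ hy)
      exact key n y ((hU y).1 hy1).1 hne hn
    exact ⟨0, Submodule.zero_mem _, by rw [map_zero, hy0]⟩

end Pool.Agent.U548.EL
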