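import Pool.Agent.U548.EL.Dec
import Pool.Agent.U548.EL.Wt
import Pool.Agent.U548.EL.Poly

/-!
# Local Euler factors: the main theorem
-/

set_option autoImplicit false

open CategoryTheory AlgebraicGeometry Module

universe u v w

namespace Pool.Agent.U548.EL

open Pool.Agent.H914 Pool.Agent.H914.VarClass Pool.Agent.H914.VarClass.Obj
  Pool.Agent.H914.WeilCohomology Pool.Agent.Y163.MW Pool.Agent.U644.LT Pool.Agent.U548.DG

section Linear

variable {K V : Type*} [Field K] [AddCommGroup V] [Module K V] [Module.Finite K V]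

omit [Module.Finite K V] in
lemma coe_restrict_pow {F : Module.End K V} {U : Submodule K V} (h : ∀ x ∈ U, F x ∈ U) (m : ℕ)
    (x : U) : (((F.restrict h) ^ m) x : V) = (F ^ m) (x : V) := by
  induction m generalizing x with
  | zero => rfl
  | succ m ih => rw [pow_succ, Module.End.mul_apply, ih, pow_succ, Module.End.mul_apply]; rfl

/-- The trace of `F ^ m e` for a projection `e`. -/
lemma trace_restrict {F T e : Module.End K V} {G U : Submodule K V} (hT : ∀ x ∈ G, T x ∈ G)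
    (hUG : U ≤ G) (hF : ∀ x ∈ U, F x ∈ U) (he : ∀ x ∈ G, e x ∈ U) (heU : ∀ x ∈ U, e x = x) {m : ℕ}
    (h : ∀ x ∈ G, T x = (F ^ m) (e x)) :
    LinearMap.trace K G (T.restrict hT) = LinearMap.trace K U ((F.restrict hF) ^ m) := by
  let r : G →ₗ[K] U := LinearMap.codRestrict U (e ∘ₗ G.subtype) fun x => he _ x.2
  let j : U →ₗ[K] G := Submodule.inclusion hUG
  have h1 : T.restrict hT = j ∘ₗ (((F.restrict hF) ^ m : Module.End K U) ∘ₗ r) := by
    apply LinearMap.ext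
    intro x
    apply Subtype.ext
    change T x = (((F.restrict hF) ^ m) (r x) : V)
    rw [coe_restrict_pow hF m, h x x.2]
    rfl
  have h2 : (((F.restrict hF) ^ m : Module.End K U) ∘ₗ r) ∘ₗ j = (F.restrict hF) ^ m := by
    apply LinearMap.ext
    intro x
    have h3 : r (j x) = x := Subtype.ext (heU x x.2)
    change ((F.restrict hF) ^ m) (r (j x)) = _
    rw [h3]
  rw [h1, LinearMap.trace_comp_comm', h2]

omit [Module.Finite K V] in
lemma exists_eigenvector {F : Module.End K V} {α : K} {y : V} (hy : y ≠ 0)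
    (h : y ∈ F.maxGenEigenspace α) : ∃ x, x ≠ 0 ∧ F x = α • x := by
  obtain ⟨n, hn⟩ := (Module.End.mem_maxGenEigenspace _ _ _).1 h
  clear h
  induction n generalizing y with
  | zero => exact absurd hn hy
  | succ n ih =>
    rw [pow_succ, Module.End.mul_apply] at hn
    by_cases h0 : (F - α • (1 : Module.End K V)) y = 0
    · refine ⟨y, hy, ?_⟩
      rw [LinearMap.sub_apply, LinearMap.smul_apply, Module.End.one_apply] at h0
      exact sub_eq_zero.1 h0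
    · exact ih h0 hn

end Linear

variable {k : Type u} [Field k] {𝒱 : VarClass k} {ops : CycleOps 𝒱} {I : Type w}
  {S : EllSystem.{u, v, w} ops I} {q : ℕ} {X Y Z : 𝒱.Obj}

/-- **Local Euler factors.** If the Künneth projector of degree `i` of `X` is given by a cycle and
`H^i(X)` is mw pure for all `ℓ`, then the local factors of the motives `(X, e)` in degree `i` have
integral coefficients and do not depend on `ℓ`. -/
theorem euler (hS : S.Known q) {i : ℕ} (hproj : S.AlgProj X i)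
    (hpure : ∀ ℓ, (S.A ℓ).PureIn q X i) : S.Independent X i := by
  intro e he s
  classical
  rcases isEmpty_or_nonempty I with hI | ⟨⟨ℓ₀⟩⟩
  · exact ⟨0, fun ℓ => (hI.false ℓ).elim⟩
  obtain ⟨z, hz, hzp⟩ := hproj
  have hq : 1 < q := (hS.local_known ℓ₀).one_lt
  -- the projection
  set E : ∀ ℓ, Module.End (S.W ℓ).K ((S.W ℓ).H X) := fun ℓ => S.P ℓ X * wact (S.W ℓ) e with hE
  have hactK : ∀ ℓ, wact (S.W ℓ) e ∈ KOp (S.W ℓ) X X 0 := fun ℓ => KOp.gen (p := X.dim) (by ring) he.1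
  have hactF : ∀ ℓ x, wact (S.W ℓ) e ((S.A ℓ).F X x) = (S.A ℓ).F X (wact (S.W ℓ) e x) := by
    intro ℓ x
    rw [(hS.local_known ℓ).F_KOp (hactK ℓ), zpow_zero, one_smul]
  have hactN : ∀ ℓ x, wact (S.W ℓ) e ((S.A ℓ).N X x) = (S.A ℓ).N X (wact (S.W ℓ) e x) :=
    fun ℓ x => ((hS.local_known ℓ).N_KOp (hactK ℓ) x).symm
  have hactg : ∀ ℓ i, ∀ x ∈ (S.W ℓ).gr X i, wact (S.W ℓ) e x ∈ (S.W ℓ).gr X i := by
    intro ℓ i x hx
    have h1 := KOp.isHom (hactK ℓ) i x (by rw [grZ_natCast]; exact hx)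
    rwa [mul_zero, add_zero, grZ_natCast] at h1
  have hPe : ∀ ℓ x, S.P ℓ X (wact (S.W ℓ) e x) = wact (S.W ℓ) e (S.P ℓ X x) :=
    fun ℓ x => congrArg (fun f => f x) (hS.part_act ℓ X.dim e he.1)
  have hEg : ∀ ℓ i, ∀ x ∈ (S.W ℓ).gr X i, E ℓ x ∈ (S.W ℓ).gr X i :=
    fun ℓ i x hx => (hS.part ℓ X).deg i _ (hactg ℓ i x hx)
  have hEF : ∀ ℓ x, E ℓ ((S.A ℓ).F X x) = (S.A ℓ).F X (E ℓ x) := by
    intro ℓ x
    change S.P ℓ X (wact (S.W ℓ) e _) = _
    rw [hactF]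
    exact ((hS.part ℓ X).F_comm (wact (S.W ℓ) e x)).symm
  have hEN : ∀ ℓ x, E ℓ ((S.A ℓ).N X x) = (S.A ℓ).N X (E ℓ x) := by
    intro ℓ x
    change S.P ℓ X (wact (S.W ℓ) e _) = _
    rw [hactN]
    exact ((hS.part ℓ X).N_comm (wact (S.W ℓ) e x)).symm
  have hPP : ∀ ℓ x, S.P ℓ X (S.P ℓ X x) = S.P ℓ X x := fun ℓ x => (hS.part ℓ X).idem x
  have hEE : ∀ ℓ x, E ℓ (E ℓ x) = E ℓ x := by
    intro ℓ x
    change S.P ℓ X (wact (S.W ℓ) e (S.P ℓ X (wact (S.W ℓ) e x))) = S.P ℓ X (wact (S.W ℓ) e x)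
    rw [← hPe, hPP, he.2 ℓ x]
  have hEP : ∀ ℓ x, E ℓ x = x → S.P ℓ X x = x ∧ wact (S.W ℓ) e x = x := by
    intro ℓ x hx
    constructor
    · conv_lhs => rw [← hx]
      change S.P ℓ X (S.P ℓ X (wact (S.W ℓ) e x)) = x
      rw [hPP]
      exact hx
    · conv_lhs => rw [← hx]
      change wact (S.W ℓ) e (S.P ℓ X (wact (S.W ℓ) e x)) = x
      rw [← hPe, he.2 ℓ x]
      exact hx
  -- the image of the projection in degree `i`
  set U : ∀ ℓ, Submodule (S.W ℓ).K ((S.W ℓ).H X) := fun ℓ =>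
    (S.W ℓ).gr X i ⊓ LinearMap.ker (E ℓ - 1) with hU
  have memU : ∀ ℓ x, x ∈ U ℓ ↔ x ∈ (S.W ℓ).gr X i ∧ E ℓ x = x := by
    intro ℓ x
    rw [hU, Submodule.mem_inf, LinearMap.mem_ker, LinearMap.sub_apply, Module.End.one_apply,
      sub_eq_zero]
  have hUF : ∀ ℓ, ∀ x ∈ U ℓ, (S.A ℓ).F X x ∈ U ℓ := by
    intro ℓ x hx
    rw [memU] at hx ⊢
    exact ⟨((hS.local_known ℓ).pre X).F_gr i x hx.1, by rw [hEF, hx.2]⟩
  have hUN : ∀ ℓ, ∀ x ∈ U ℓ, (S.A ℓ).N X x ∈ U ℓ := by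
    intro ℓ x hx
    rw [memU] at hx ⊢
    exact ⟨((hS.local_known ℓ).pre X).N_gr i x hx.1, by rw [hEN, hx.2]⟩
  have hUNs : ∀ ℓ (s : ℕ), ∀ x ∈ U ℓ, ((S.A ℓ).N X ^ s) x ∈ U ℓ := by
    intro ℓ s
    induction s with
    | zero => intro x hx; exact hx
    | succ s ih =>
      intro x hx
      rw [pow_succ', Module.End.mul_apply]
      exact hUN ℓ _ (ih x hx)
  -- the traces
  have hζ : (X.prod X).IsCyc X.dim (compCyc ops z e) := compCyc_mem hz he.1 (by ring)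
  have hact : ∀ ℓ x, wact (S.W ℓ) (compCyc ops z e) x = wact (S.W ℓ) e (wact (S.W ℓ) z x) := by
    intro ℓ x
    exact congrArg (fun f => f x) (corr_compCyc (S.W ℓ) he.1)
  have htr : ∀ m : ℕ, ∃ t : ℚ, ∀ ℓ,
      LinearMap.trace (S.W ℓ).K (U ℓ) (((S.A ℓ).F X).restrict (hUF ℓ) ^ m) = (t : (S.W ℓ).K) := by
    intro m
    obtain ⟨t, ht⟩ := hS.trace X _ hζ m
    by_cases hi : i ≤ 2 * X.dim
    · refine ⟨(-1) ^ i * t, fun ℓ => ?_⟩
      obtain ⟨τ, hτ, hsum⟩ := ht ℓ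
      have hT : ∀ j, ∀ x ∈ (S.W ℓ).gr X j,
          mix ((S.A ℓ).F X) (S.P ℓ X) (wact (S.W ℓ) (compCyc ops z e)) m x =
            ((S.A ℓ).F X ^ m) (E ℓ (if j = i then x else 0)) := by
        intro j x hx
        change ((S.A ℓ).F X ^ m) (S.P ℓ X (wact (S.W ℓ) (compCyc ops z e) x)) = _
        rw [hact, hzp ℓ j x hx]
        rfl
      have hFm : ∀ (m : ℕ) (j : ℕ), ∀ x ∈ (S.W ℓ).gr X j, ((S.A ℓ).F X ^ m) x ∈ (S.W ℓ).gr X j := by
        intro m j
        induction m with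
        | zero => intro x hx; exact hx
        | succ m ih =>
          intro x hx
          rw [pow_succ', Module.End.mul_apply]
          exact ((hS.local_known ℓ).pre X).F_gr j _ (ih x hx)
      have hTg : ∀ j, ∀ x ∈ (S.W ℓ).gr X j,
          mix ((S.A ℓ).F X) (S.P ℓ X) (wact (S.W ℓ) (compCyc ops z e)) m x ∈ (S.W ℓ).gr X j := by
        intro j x hx
        rw [hT j x hx]
        apply hFm
        apply hEg
        split_ifs
        · exact hx
        · exact Submodule.zero_mem _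
      have h0 : ∀ j, j ≠ i → τ j = 0 := by
        intro j hj
        rw [← hτ j (hTg j)]
        have h1 : (mix ((S.A ℓ).F X) (S.P ℓ X) (wact (S.W ℓ) (compCyc ops z e)) m).restrict (hTg j) =
            0 := by
          apply LinearMap.ext
          intro x
          apply Subtype.ext
          change mix ((S.A ℓ).F X) (S.P ℓ X) (wact (S.W ℓ) (compCyc ops z e)) m x = 0
          rw [hT j x x.2, if_neg hj, map_zero, map_zero]
        rw [h1, map_zero]
      have h2 : τ i = LinearMap.trace (S.W ℓ).K (U ℓ) (((S.A ℓ).F X).restrict (hUF ℓ) ^ m) := by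
        rw [← hτ i (hTg i)]
        refine trace_restrict (e := E ℓ) (hTg i) inf_le_left (hUF ℓ) ?_ ?_ ?_
        · intro x hx
          exact (memU ℓ _).2 ⟨hEg ℓ i x hx, hEE ℓ x⟩
        · intro x hx
          exact ((memU ℓ x).1 hx).2
        · intro x hx
          rw [hT i x hx, if_pos rfl]
      rw [Finset.sum_eq_single i (fun j _ hj => by rw [h0 j hj, mul_zero])
        (fun hn => absurd (Finset.mem_range.2 (by omega)) hn)] at hsum
      rw [← h2, Rat.cast_mul, hsum, Rat.cast_pow, Rat.cast_neg, Rat.cast_one, ← mul_assoc,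
        ← mul_pow, neg_mul_neg, one_mul, one_pow, one_mul]
    · refine ⟨0, fun ℓ => ?_⟩
      have h1 : U ℓ = ⊥ := by
        rw [eq_bot_iff]
        intro x hx
        have h2 := ((memU ℓ x).1 hx).1
        rw [(S.W ℓ).gr_eq_bot X i (by omega)] at h2
        exact h2
      have h2 : ∀ f : Module.End (S.W ℓ).K (U ℓ), f = 0 := by
        intro f
        apply LinearMap.ext
        intro x
        apply Subtype.ext
        exact (Submodule.mem_bot _).1 (h1.le (f x).2)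
      rw [h2 (_ ^ m), map_zero, Rat.cast_zero]
  choose t ht using htr
  obtain ⟨C, hC⟩ := exists_charpoly (K := fun ℓ => (S.W ℓ).K) (V := fun ℓ => U ℓ)
    (fun ℓ => ((S.A ℓ).F X).restrict (hUF ℓ)) t (fun ℓ m => ht m ℓ)
  -- the kernel of `N ^ s`
  have hNF : ∀ ℓ x, ((S.A ℓ).N X ^ s) ((S.A ℓ).F X x) =
      (q : (S.W ℓ).K) ^ s • (S.A ℓ).F X (((S.A ℓ).N X ^ s) x) :=
    fun ℓ => twisted_pow ((hS.local_known ℓ).pre X).N_F s
  have hNF' : ∀ ℓ x, ((S.A ℓ).N X ^ s) ((S.A ℓ).F X x) =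
      ((q ^ s : ℕ) : (S.W ℓ).K) • (S.A ℓ).F X (((S.A ℓ).N X ^ s) x) := by
    intro ℓ x
    rw [Nat.cast_pow]
    exact hNF ℓ x
  set D : ∀ ℓ, Submodule (S.W ℓ).K ((S.W ℓ).H X) := fun ℓ =>
    fixedIn ((S.W ℓ).gr X i) ((S.A ℓ).N X) (S.P ℓ X) (wact (S.W ℓ) e) s with hD
  have memD : ∀ ℓ x, x ∈ D ℓ ↔ x ∈ U ℓ ∧ ((S.A ℓ).N X ^ s) x = 0 := by
    intro ℓ x
    rw [hD, memU]
    unfold fixedIn
    simp only [Submodule.mem_inf, LinearMap.mem_ker, LinearMap.sub_apply, Module.End.one_apply,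
      sub_eq_zero]
    constructor
    · rintro ⟨⟨⟨h1, h2⟩, h3⟩, h4⟩
      refine ⟨⟨h1, ?_⟩, h2⟩
      change S.P ℓ X (wact (S.W ℓ) e x) = x
      rw [h4, h3]
    · rintro ⟨⟨h1, h2⟩, h3⟩
      exact ⟨⟨⟨h1, h3⟩, (hEP ℓ x h2).1⟩, (hEP ℓ x h2).2⟩
  have hDF : ∀ ℓ, ∀ x ∈ D ℓ, (S.A ℓ).F X x ∈ D ℓ := by
    intro ℓ x hx
    rw [memD] at hx ⊢
    refine ⟨hUF ℓ x hx.1, ?_⟩
    rw [hNF, hx.2, map_zero, smul_zero]
  have hker : ∀ ℓ, (((S.A ℓ).F X).restrict (hDF ℓ)).charpoly =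
      (C / Pool.Agent.U865.EF.common C (q ^ s)).map (algebraMap ℚ (S.W ℓ).K) := by
    intro ℓ
    have := hS.closed ℓ
    refine charpoly_ker (V := (S.W ℓ).H X) (F := (S.A ℓ).F X) (N := (S.A ℓ).N X ^ s)
      (pow_ne_zero s (by omega : q ≠ 0)) (hNF' ℓ) (hUF ℓ) (hUNs ℓ s) (hDF ℓ)
      (memD ℓ) ?_ (hC ℓ)
    rw [Nat.cast_pow]
    exact inj_or_surj (R := (S.A ℓ).coh X) hq ((hS.local_known ℓ).pre X) (hpure ℓ) (memU ℓ)
      (hEg ℓ i) (hEF ℓ) (hEN ℓ) s
  -- integrality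
  have hCm : C.Monic := by
    apply Polynomial.monic_of_injective (algebraMap ℚ (S.W ℓ₀).K).injective
    rw [← hC ℓ₀]
    exact LinearMap.charpoly_monic _
  have hclosed := hS.closed ℓ₀
  obtain ⟨P', hP'⟩ := exists_integral (K := (S.W ℓ₀).K)
    (Pool.Agent.U865.EF.quot_monic hCm (q ^ s)) (by
      intro α hα
      rw [← hker ℓ₀, rootMultiplicity_restrict] at hα
      have h1 : (D ℓ₀ ⊓ ((S.A ℓ₀).F X).maxGenEigenspace α : Submodule _ _) ≠ ⊥ := by
        intro h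
        apply hα
        rw [h, finrank_bot]
      obtain ⟨y, hy, hy0⟩ := Submodule.exists_mem_ne_zero_of_ne_bot h1
      obtain ⟨x, hx0, hx⟩ := exists_eigenvector hy0 hy.2
      exact hS.integral ℓ₀ X α x hx0 hx)
  refine ⟨P'.reverse, fun ℓ => ⟨hDF ℓ, ?_⟩⟩
  rw [hker ℓ, ← hP', Polynomial.map_map]
  have h1 : (algebraMap ℚ (S.W ℓ).K).comp (Int.castRingHom ℚ) = Int.castRingHom (S.W ℓ).K :=
    RingHom.ext_int _ _
  rw [h1]
  unfold Polynomial.reverse
  rw [← Polynomial.reflect_map, Polynomial.natDegree_map_eq_of_injective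
    (Int.castRingHom (S.W ℓ).K).injective_int]

/-- **Varieties with a decomposition of the diagonal.** -/
theorem main_euler (hS : S.Known q) (hX : S.Decomposition q X) {i : ℕ}
    (hi : i ≤ 3 ∨ 2 * X.dim ≤ i + 3 ∨ X.dim ≤ 4) : S.Independent X i :=
  euler hS (algProj hS hX hi) (fun ℓ => pure hS hX ℓ (by omega))

end Pool.Agent.U548.EL
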