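import Pool.Agent.U548.EL.Defs
import Pool.Agent.U548.DG.Main

/-!
# Families of operators given by cycles, and Künneth projectors
-/

set_option autoImplicit false

open CategoryTheory AlgebraicGeometry

universe u v w

namespace Pool.Agent.U548.EL

open Pool.Agent.H914 Pool.Agent.H914.VarClass Pool.Agent.H914.VarClass.Obj
  Pool.Agent.H914.WeilCohomology Pool.Agent.Y163.MW Pool.Agent.U644.LT Pool.Agent.U548.DG

variable {k : Type u} [Field k] {𝒱 : VarClass k} {ops : CycleOps 𝒱} {I : Type w}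
  {S : EllSystem.{u, v, w} ops I} {q : ℕ} {X Y Z : 𝒱.Obj}

/-- A family of operators, one for each `ℓ`. -/
abbrev Fam (S : EllSystem.{u, v, w} ops I) (X Y : 𝒱.Obj) :=
  ∀ ℓ, (S.W ℓ).H X →ₗ[(S.W ℓ).K] (S.W ℓ).H Y

/-- The family is given by a cycle of degree `d`, or it is zero. -/
def Rl (S : EllSystem.{u, v, w} ops I) (X Y : 𝒱.Obj) (d : ℤ) (φ : Fam S X Y) : Prop :=
  (∀ ℓ, φ ℓ = 0) ∨ ∃ p : ℕ, (p : ℤ) = X.dim + d ∧ ∃ z, (X.prod Y).IsCyc p z ∧
    ∀ ℓ, wact (S.W ℓ) z = φ ℓ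

namespace Rl

variable {d e : ℤ} {φ φ' : Fam S X Y} {ψ : Fam S Y Z}

lemma cast (h : Rl S X Y d φ) (hde : d = e) : Rl S X Y e φ := hde ▸ h

lemma congr (h : Rl S X Y d φ) (h' : ∀ ℓ, φ ℓ = φ' ℓ) : Rl S X Y d φ' := by
  have : φ = φ' := funext h'
  rwa [← this]

lemma zero : Rl S X Y d (fun _ => 0) := Or.inl fun _ => rfl

lemma kop (h : Rl S X Y d φ) (ℓ : I) : φ ℓ ∈ KOp (S.W ℓ) X Y d := by
  rcases h with h | ⟨p, hp, z, hz, h⟩
  · rw [h ℓ]
    exact Submodule.zero_mem _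
  · rw [← h ℓ]
    exact KOp.gen hp hz

lemma add (h : Rl S X Y d φ) (h' : Rl S X Y d φ') : Rl S X Y d (fun ℓ => φ ℓ + φ' ℓ) := by
  rcases h with h | ⟨p, hp, z, hz, h⟩
  · exact h'.congr fun ℓ => by rw [h ℓ, zero_add]
  · rcases h' with h' | ⟨p', hp', z', hz', h'⟩
    · exact Rl.congr (φ := φ) (Or.inr ⟨p, hp, z, hz, h⟩) fun ℓ => by rw [h' ℓ, add_zero]
    · obtain rfl : p = p' := by omega
      refine Or.inr ⟨p, hp, z + z', hz.add hz', fun ℓ => ?_⟩
      beta_reduce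
      rw [← h ℓ, ← h' ℓ]
      unfold wact
      rw [map_add, corr_add]

lemma smul (c : ℚ) (h : Rl S X Y d φ) : Rl S X Y d (fun ℓ => (c : (S.W ℓ).K) • φ ℓ) := by
  rcases h with h | ⟨p, hp, z, hz, h⟩
  · exact Or.inl fun ℓ => by beta_reduce; rw [h ℓ, smul_zero]
  · refine Or.inr ⟨p, hp, c • z, hz.smul c, fun ℓ => ?_⟩
    beta_reduce
    rw [← h ℓ]
    unfold wact
    rw [cl_smul, corr_smul]

lemma neg (h : Rl S X Y d φ) : Rl S X Y d (fun ℓ => - φ ℓ) :=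
  (h.smul (-1)).congr (fun ℓ => by
    rw [Rat.cast_neg, Rat.cast_one]
    exact neg_one_smul (S.W ℓ).K (φ ℓ))

lemma sum {ι : Type*} {s : Finset ι} {F : ι → Fam S X Y} (h : ∀ i ∈ s, Rl S X Y d (F i)) :
    Rl S X Y d (fun ℓ => ∑ i ∈ s, F i ℓ) := by
  classical
  induction s using Finset.induction_on with
  | empty => exact zero.congr fun _ => Finset.sum_empty.symm
  | insert a s ha ih =>
    refine ((h a (by simp)).add (ih (fun i hi => h i (by simp [hi])))).congr fun ℓ => ?_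
    exact (Finset.sum_insert (f := fun i => F i ℓ) ha).symm

lemma comp (hψ : Rl S Y Z e ψ) (hφ : Rl S X Y d φ) : Rl S X Z (d + e) (fun ℓ => ψ ℓ ∘ₗ φ ℓ) := by
  rcases hφ with hφ | ⟨p, hp, z, hz, hφ⟩
  · exact Or.inl fun ℓ => by beta_reduce; rw [hφ ℓ, LinearMap.comp_zero]
  rcases hψ with hψ | ⟨p', hp', z', hz', hψ⟩
  · exact Or.inl fun ℓ => by beta_reduce; rw [hψ ℓ, LinearMap.zero_comp]
  by_cases hde : (X.dim : ℤ) + (d + e) < 0
  · left
    intro ℓ
    have h1 : φ ℓ ∈ KOp (S.W ℓ) X Y d := by rw [← hφ ℓ]; exact KOp.gen hp hz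
    have h2 : ψ ℓ ∈ KOp (S.W ℓ) Y Z e := by rw [← hψ ℓ]; exact KOp.gen hp' hz'
    have h3 := KOp.comp h2 h1
    apply gr_ext ((S.W ℓ).isInternal X)
    intro i a ha
    have h4 := KOp.isHom h3 i a (by rw [grZ_natCast]; exact ha)
    rw [LinearMap.zero_apply]
    by_cases hi : 2 * X.dim < i
    · rw [(S.W ℓ).gr_eq_bot X i hi] at ha
      rw [(Submodule.mem_bot _).1 ha, map_zero]
    · rw [grZ_of_neg (by omega)] at h4
      exact (Submodule.mem_bot _).1 h4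
  · refine Or.inr ⟨(X.dim + (d + e)).toNat, by omega, compCyc ops z z',
      compCyc_mem hz hz' (by omega), fun ℓ => ?_⟩
    beta_reduce
    rw [← hφ ℓ, ← hψ ℓ]
    exact corr_compCyc (S.W ℓ) hz'

lemma pushHom (f : X ⟶ Y) : Rl S X Y ((Y.dim : ℤ) - X.dim) (fun ℓ => (S.W ℓ).push f) := by
  have h1 : (X.prod Y).IsCyc Y.dim (ops.push (Obj.lift (𝟙 X) f) X.V.fundCycle) :=
    ops.push_mem _ X.V.fundCycle_mem (by rw [dim_prod]; omega)
  refine Or.inr ⟨Y.dim, by ring, _, h1, fun ℓ => ?_⟩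
  apply LinearMap.ext
  intro a
  have e1 : Obj.lift (𝟙 X) f ≫ fst X Y = 𝟙 X := Obj.lift_fst _ _
  have e2 : Obj.lift (𝟙 X) f ≫ snd X Y = f := Obj.lift_snd _ _
  change (S.W ℓ).corr ((S.W ℓ).cl _ _) a = _
  rw [corr_apply, (S.W ℓ).cl_push, (S.W ℓ).cl_fund, ← (S.W ℓ).push_mul, ← (S.W ℓ).push_comp,
    ← (S.W ℓ).map_comp, e1, e2, (S.W ℓ).map_id, one_mul]

lemma mapHom (f : X ⟶ Y) : Rl S Y X 0 (fun ℓ => ((S.W ℓ).map f).toLinearMap) := by
  have h1 : (Y.prod X).IsCyc Y.dim (ops.push (Obj.lift f (𝟙 X)) X.V.fundCycle) :=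
    ops.push_mem _ X.V.fundCycle_mem (by rw [dim_prod]; omega)
  refine Or.inr ⟨Y.dim, by ring, _, h1, fun ℓ => ?_⟩
  apply LinearMap.ext
  intro a
  have e1 : Obj.lift f (𝟙 X) ≫ fst Y X = f := Obj.lift_fst _ _
  have e2 : Obj.lift f (𝟙 X) ≫ snd Y X = 𝟙 X := Obj.lift_snd _ _
  change (S.W ℓ).corr ((S.W ℓ).cl _ _) a = _
  rw [corr_apply, (S.W ℓ).cl_push, (S.W ℓ).cl_fund, ← (S.W ℓ).push_mul, ← (S.W ℓ).push_comp,
    ← (S.W ℓ).map_comp, e1, e2, (S.W ℓ).push_id, one_mul]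
  rfl

lemma id (X : 𝒱.Obj) : Rl S X X 0 (fun _ => LinearMap.id) := by
  refine (mapHom (S := S) (𝟙 X)).congr fun ℓ => ?_
  apply LinearMap.ext
  intro a
  exact (S.W ℓ).map_id X a

/-- The transposed operators. -/
lemma transpose (h : Rl S X Y d φ) : ∃ ψ : Fam S Y X, Rl S Y X (d + X.dim - Y.dim) ψ ∧
    ∀ ℓ a b, (S.W ℓ).tr Y (φ ℓ a * b) = (S.W ℓ).tr X (a * ψ ℓ b) := by
  rcases h with h | ⟨p, hp, z, hz, h⟩
  · refine ⟨fun _ => 0, zero, fun ℓ a b => ?_⟩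
    rw [h ℓ, LinearMap.zero_apply, zero_mul, LinearMap.zero_apply, mul_zero, map_zero, map_zero]
  · refine ⟨fun ℓ => wact (S.W ℓ) (ops.pull (swap Y X) z), Or.inr ⟨p, by omega, _, ops.pull_mem _ hz,
      fun _ => rfl⟩, fun ℓ a b => ?_⟩
    rw [← h ℓ]
    unfold wact
    beta_reduce
    rw [(S.W ℓ).cl_pull]
    exact tr_corr_swap ((S.W ℓ).cl_mem hz) a b

end Rl

/-- The family of the projections to degree `i`. -/
noncomputable def prF (S : EllSystem.{u, v, w} ops I) (X : 𝒱.Obj) (i : ℕ) : Fam S X X :=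
  fun ℓ => proj ((S.W ℓ).isInternal X) i

lemma prF_same {ℓ : I} {i : ℕ} {a : (S.W ℓ).H X} (ha : a ∈ (S.W ℓ).gr X i) :
    prF S X i ℓ a = a := proj_same _ ha

lemma prF_ne {ℓ : I} {i j : ℕ} {a : (S.W ℓ).H X} (ha : a ∈ (S.W ℓ).gr X i) (hij : i ≠ j) :
    prF S X j ℓ a = 0 := proj_ne _ ha hij

lemma prF_mem (ℓ : I) (i : ℕ) (a : (S.W ℓ).H X) : prF S X i ℓ a ∈ (S.W ℓ).gr X i :=
  proj_mem _ i a

lemma isProjector_iff {ℓ : I} {i : ℕ} {T : Module.End (S.W ℓ).K ((S.W ℓ).H X)} :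
    IsProjector ((S.W ℓ).gr X) i T ↔ T = prF S X i ℓ := by
  constructor
  · intro h
    apply gr_ext ((S.W ℓ).isInternal X)
    intro j a ha
    rw [h j a ha]
    split_ifs with hj
    · rw [← hj, prF_same ha]
    · rw [prF_ne ha hj]
  · rintro rfl j a ha
    split_ifs with hj
    · rw [← hj, prF_same ha]
    · rw [prF_ne ha hj]

/-- The Künneth projector is given by a cycle if and only if it is in `Rl`. -/
lemma algProj_iff {i : ℕ} : S.AlgProj X i ↔ Rl S X X 0 (prF S X i) := by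
  constructor
  · rintro ⟨z, hz, h⟩
    exact Or.inr ⟨X.dim, by ring, z, hz, fun ℓ => isProjector_iff.1 (h ℓ)⟩
  · rintro (h | ⟨p, hp, z, hz, h⟩)
    · refine ⟨0, SmVar.IsCyc.zero _ _, fun ℓ => isProjector_iff.2 ?_⟩
      rw [h ℓ]
      unfold wact
      rw [map_zero, corr_zero]
    · obtain rfl : p = X.dim := by omega
      exact ⟨z, hz, fun ℓ => isProjector_iff.2 (h ℓ)⟩

/-- Operators and the projectors. -/
lemma comp_prF {d : ℤ} {φ : Fam S X Y} (h : Rl S X Y d φ) {i i' : ℕ} (hi : (i' : ℤ) = i + 2 * d)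
    (ℓ : I) : φ ℓ ∘ₗ prF S X i ℓ = prF S Y i' ℓ ∘ₗ φ ℓ := by
  apply gr_ext ((S.W ℓ).isInternal X)
  intro j a ha
  rw [LinearMap.comp_apply, LinearMap.comp_apply]
  have h1 := KOp.isHom (h.kop ℓ) j a (by rw [grZ_natCast]; exact ha)
  by_cases hj : j = i
  · subst hj
    rw [prF_same ha]
    rw [← hi, grZ_natCast] at h1
    rw [prF_same h1]
  · rw [prF_ne ha hj, map_zero]
    by_cases hneg : (j : ℤ) + 2 * d < 0
    · rw [grZ_of_neg hneg] at h1
      rw [(Submodule.mem_bot _).1 h1, map_zero]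
    · obtain ⟨j', hj'⟩ : ∃ j' : ℕ, (j' : ℤ) = j + 2 * d := ⟨((j : ℤ) + 2 * d).toNat, by omega⟩
      rw [← hj', grZ_natCast] at h1
      rw [prF_ne h1 (by omega)]

lemma comp_prF_neg {d : ℤ} {φ : Fam S X Y} (h : Rl S X Y d φ) {i : ℕ}
    (hi : (i : ℤ) + 2 * d < 0) (ℓ : I) : φ ℓ ∘ₗ prF S X i ℓ = 0 := by
  apply LinearMap.ext
  intro a
  rw [LinearMap.comp_apply, LinearMap.zero_apply]
  have h1 := KOp.isHom (h.kop ℓ) i _ (by rw [grZ_natCast]; exact prF_mem ℓ i a)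
  rw [grZ_of_neg hi] at h1
  exact (Submodule.mem_bot _).1 h1

/-- The projectors of dual degrees. -/
lemma algProj_dual {i : ℕ} (hi : i ≤ 2 * X.dim) (h : S.AlgProj X i) :
    S.AlgProj X (2 * X.dim - i) := by
  rw [algProj_iff] at h ⊢
  obtain ⟨ψ, hψ, h1⟩ := h.transpose
  refine (hψ.cast (by ring)).congr fun ℓ => ?_
  apply LinearMap.ext
  intro b
  have key : ∀ a, (S.W ℓ).tr X (a * ψ ℓ b) = (S.W ℓ).tr X (a * prF S X (2 * X.dim - i) ℓ b) := by
    intro a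
    rw [← h1 ℓ]
    refine gr_induction ((S.W ℓ).isInternal X) (p := fun a => (S.W ℓ).tr X (prF S X i ℓ a * b) =
      (S.W ℓ).tr X (a * prF S X (2 * X.dim - i) ℓ b)) ?_ ?_ a
    · intro j a ha
      refine gr_induction ((S.W ℓ).isInternal X) (p := fun b => (S.W ℓ).tr X (prF S X i ℓ a * b) =
        (S.W ℓ).tr X (a * prF S X (2 * X.dim - i) ℓ b)) ?_ ?_ b
      · intro j' b hb
        by_cases hj : j = i
        · rw [hj] at ha
          rw [prF_same ha]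
          by_cases hj' : j' = 2 * X.dim - i
          · rw [hj'] at hb
            rw [prF_same hb]
          · rw [prF_ne hb hj', mul_zero, map_zero]
            exact (S.W ℓ).tr_eq_zero ((S.W ℓ).mul_mem ha hb) (by omega)
        · rw [prF_ne ha hj, zero_mul, map_zero]
          by_cases hj' : j' = 2 * X.dim - i
          · rw [hj'] at hb
            rw [prF_same hb]
            exact ((S.W ℓ).tr_eq_zero ((S.W ℓ).mul_mem ha hb) (by omega)).symm
          · rw [prF_ne hb hj', mul_zero, map_zero]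
      · intro b b' hb hb'
        rw [mul_add, map_add, map_add, mul_add, map_add, hb, hb']
    · intro a a' ha ha'
      rw [map_add, add_mul, add_mul, map_add, map_add, ha, ha']
  rw [← sub_eq_zero]
  apply nondeg_right
  intro a
  rw [mul_sub, map_sub, key a, sub_self]

/-- The last projector. -/
lemma algProj_last {i : ℕ} (h : ∀ j, j ≤ 2 * X.dim → j ≠ i → S.AlgProj X j) (hi : i ≤ 2 * X.dim) :
    S.AlgProj X i := by
  classical
  rw [algProj_iff]
  have h1 : Rl S X X 0 (fun ℓ => ∑ j ∈ (Finset.range (2 * X.dim + 1)).erase i, prF S X j ℓ) :=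
    Rl.sum fun j hj => algProj_iff.1 (h j (by
      have := Finset.mem_range.1 (Finset.mem_erase.1 hj).2
      omega) (Finset.mem_erase.1 hj).1)
  refine ((Rl.id X).add h1.neg).congr fun ℓ => ?_
  apply gr_ext ((S.W ℓ).isInternal X)
  intro j a ha
  rw [LinearMap.add_apply, LinearMap.neg_apply, LinearMap.sum_apply, LinearMap.id_apply]
  by_cases hj : j = i
  · rw [hj] at ha
    rw [prF_same ha, Finset.sum_eq_zero fun t ht => prF_ne ha (Finset.mem_erase.1 ht).1.symm,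
      neg_zero, add_zero]
  · rw [prF_ne ha hj]
    by_cases hj2 : 2 * X.dim < j
    · rw [(S.W ℓ).gr_eq_bot X j hj2] at ha
      rw [(Submodule.mem_bot _).1 ha]
      simp
    · rw [Finset.sum_eq_single j (fun t _ ht => prF_ne ha ht.symm) (fun hn => absurd
        (Finset.mem_erase.2 ⟨hj, Finset.mem_range.2 (by omega)⟩) hn), prF_same ha, add_neg_cancel]

end Pool.Agent.U548.EL
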